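import Pool.Agent.V11147.BicD

/-! # Bicrucial permutations with respect to k-th powers

For every `k ≥ 3` there are arbitrarily long permutations which are bicrucial with respect to
`k`-th powers.  Positions and values are numbered from `0`. -/

namespace Pool.Agent.Results.MP_8f6629_co.AllPowers

open Pool.Agent.V11147.Bic

/-- `σ` contains a `k`-th power: for some block length `l ≥ 2` and some start `s`, the `k`
consecutive blocks of length `l` starting at position `s` are pairwise order-isomorphic. -/
def HasPower (k : ℕ) {n : ℕ} (σ : Equiv.Perm (Fin n)) : Prop :=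
  ∃ l s : ℕ, 2 ≤ l ∧ s + k * l ≤ n ∧
    ∀ r < k, ∀ r' < k, ∀ i < l, ∀ j < l, ∀ p q p' q' : Fin n,
      (p : ℕ) = s + r * l + i → (q : ℕ) = s + r * l + j →
      (p' : ℕ) = s + r' * l + i → (q' : ℕ) = s + r' * l + j →
      (σ p < σ q ↔ σ p' < σ q')

/-- `τ` is a right extension of `σ`: its first `n` entries are order-isomorphic to `σ`. -/
def RightExt {n : ℕ} (σ : Equiv.Perm (Fin n)) (τ : Equiv.Perm (Fin (n + 1))) : Prop :=
  ∀ i j : Fin n, (τ i.castSucc < τ j.castSucc ↔ σ i < σ j)

/-- `τ` is a left extension of `σ`: its last `n` entries are order-isomorphic to `σ`. -/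
def LeftExt {n : ℕ} (σ : Equiv.Perm (Fin n)) (τ : Equiv.Perm (Fin (n + 1))) : Prop :=
  ∀ i j : Fin n, (τ i.succ < τ j.succ ↔ σ i < σ j)

/-- `σ` is bicrucial with respect to `k`-th powers. -/
def Bicrucial (k : ℕ) {n : ℕ} (σ : Equiv.Perm (Fin n)) : Prop :=
  ¬ HasPower k σ ∧ (∀ τ, RightExt σ τ → HasPower k τ) ∧ (∀ τ, LeftExt σ τ → HasPower k τ)

/-- Standardisation of an injective sequence. -/
theorem exists_perm (n : ℕ) (a : Fin n → ℤ) (ha : Function.Injective a) :
    ∃ σ : Equiv.Perm (Fin n), ∀ i j, (σ i < σ j ↔ a i < a j) := by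
  classical
  have hc : (Finset.univ.image a).card = n := by
    rw [Finset.card_image_of_injective _ ha, Finset.card_univ, Fintype.card_fin]
  let e := (Finset.univ.image a).orderIsoOfFin hc
  let f : Fin n → Fin n := fun i =>
    e.symm ⟨a i, Finset.mem_image_of_mem a (Finset.mem_univ i)⟩
  have hf : Function.Injective f := by
    intro i j hij
    have := e.symm.injective hij
    exact ha (Subtype.mk.inj this)
  refine ⟨Equiv.ofBijective f ((Fintype.bijective_iff_injective_and_card f).2 ⟨hf, rfl⟩), ?_⟩
  intro i j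
  rw [Equiv.ofBijective_apply, Equiv.ofBijective_apply]
  show e.symm _ < e.symm _ ↔ _
  rw [OrderIso.lt_iff_lt]
  exact Iff.rfl

section
variable {κ β : ℕ}

/-- the value function is periodic up to a constant shift -/
theorem val_shift (κ β i r : ℕ) :
    val κ β (r * LL κ β + i) = val κ β i - 12 * (LL κ β : ℤ) * r := by
  have hLL : LL κ β = 4 * κ + 4 * β + 17 := rfl
  have h1 : (r * LL κ β + i) % LL κ β = i % LL κ β := by
    rw [add_comm, Nat.add_mul_mod_self_right]
  have h2 : (r * LL κ β + i) / LL κ β = i / LL κ β + r := by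
    rw [add_comm, Nat.add_mul_div_right _ _ (by omega)]
  unfold val lev
  rw [h1, h2]
  push_cast
  ring

theorem val_shift_lt (κ β i j r : ℕ) :
    (val κ β (r * LL κ β + i) < val κ β (r * LL κ β + j)) ↔ val κ β i < val κ β j := by
  rw [val_shift, val_shift]
  constructor <;> intro h <;> linarith

theorem sp_mul (κ β r : ℕ) : sp κ β (r * LL κ β) := by
  unfold sp spq
  left
  exact Nat.mul_mod_left r (LL κ β)

theorem sp_pred (κ β r : ℕ) (d : ℕ) (hd : 1 ≤ d) (hd' : d ≤ 3) :
    sp κ β (r * LL κ β + (LL κ β - d)) := by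
  have hLL : LL κ β = 4 * κ + 4 * β + 17 := rfl
  unfold sp spq
  right
  have : (r * LL κ β + (LL κ β - d)) % LL κ β = LL κ β - d := by
    rw [add_comm, Nat.add_mul_mod_self_right, Nat.mod_eq_of_lt (by omega)]
  rw [this]
  omega

/-- ascents right after a copy starts -/
theorem asc_left (κ β r i : ℕ) (h : 1 ≤ i) (h' : i < 2 * κ + 5) :
    val κ β (r * LL κ β + i) < val κ β (r * LL κ β + i + 1) := by
  have hLL : LL κ β = 4 * κ + 4 * β + 17 := rfl
  have hm : (r * LL κ β + i) % LL κ β = i := by
    rw [add_comm, Nat.add_mul_mod_self_right, Nat.mod_eq_of_lt (by omega)]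
  have h1 : ¬ sp κ β (r * LL κ β + i) := by
    unfold sp spq; rw [hm]; omega
  have h2 := val_adj κ β (r * LL κ β + i)
  rw [D_nsp h1, hm, lt_s1 (κ := κ) (β := β) h'] at h2
  have h3 : ¬ (val κ β (r * LL κ β + i + 1) < val κ β (r * LL κ β + i)) := by
    intro h; exact absurd (h2.1 h) (by simp)
  rcases lt_or_eq_of_le (not_lt.mp h3) with h | h
  · exact h
  · exact absurd (val_inj κ β h) (by omega)

/-- ascents right before a copy ends -/
theorem asc_right (κ β r i : ℕ) (hb1 : tm (β + 4) = true) (h : 4 ≤ i) (h' : i ≤ 2 * κ + 7) :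
    val κ β (r * LL κ β + (LL κ β - i)) < val κ β (r * LL κ β + (LL κ β - i) + 1) := by
  have hLL : LL κ β = 4 * κ + 4 * β + 17 := rfl
  have hm : (r * LL κ β + (LL κ β - i)) % LL κ β = LL κ β - i := by
    rw [add_comm, Nat.add_mul_mod_self_right, Nat.mod_eq_of_lt (by omega)]
  have h1 : ¬ sp κ β (r * LL κ β + (LL κ β - i)) := by
    unfold sp spq; rw [hm]; omega
  have h2 := val_adj κ β (r * LL κ β + (LL κ β - i))
  rw [D_nsp h1, hm, lt_e1 hb1 (by omega)] at h2
  have h3 : ¬ (val κ β (r * LL κ β + (LL κ β - i) + 1) <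
      val κ β (r * LL κ β + (LL κ β - i))) := by
    intro h; exact absurd (h2.1 h) (by simp)
  rcases lt_or_eq_of_le (not_lt.mp h3) with h | h
  · exact h
  · exact absurd (val_inj κ β h) (by omega)

end

/-- two-element blocks, all of them ascents, give a power -/
theorem power_two {k n s : ℕ} (τ : Equiv.Perm (Fin n)) (hs : s + k * 2 ≤ n)
    (h : ∀ r < k, ∀ p q : Fin n, (p : ℕ) = s + r * 2 → (q : ℕ) = s + r * 2 + 1 → τ p < τ q) :
    HasPower k τ := by
  refine ⟨2, s, le_rfl, hs, ?_⟩
  intro r hr r' hr' i hi j hj p q p' q' hp hq hp' hq'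
  have hi' : i = 0 ∨ i = 1 := by omega
  have hj' : j = 0 ∨ j = 1 := by omega
  rcases hi' with rfl | rfl <;> rcases hj' with rfl | rfl
  · have e1 : p = q := Fin.ext (by omega)
    have e2 : p' = q' := Fin.ext (by omega)
    rw [e1, e2]; simp
  · exact iff_of_true (h r hr p q (by omega) (by omega)) (h r' hr' p' q' (by omega) (by omega))
  · exact iff_of_false (lt_asymm (h r hr q p (by omega) (by omega)))
      (lt_asymm (h r' hr' q' p' (by omega) (by omega)))
  · have e1 : p = q := Fin.ext (by omega)
    have e2 : p' = q' := Fin.ext (by omega)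
    rw [e1, e2]; simp

/-- blocks described by a common comparison pattern give a power -/
theorem power_pattern {k n l : ℕ} (τ : Equiv.Perm (Fin n)) (hl : 2 ≤ l) (hn : k * l ≤ n)
    (C : ℕ → ℕ → Prop)
    (h : ∀ r < k, ∀ i < l, ∀ j < l, ∀ p q : Fin n, (p : ℕ) = r * l + i → (q : ℕ) = r * l + j →
      (τ p < τ q ↔ C i j)) :
    HasPower k τ := by
  refine ⟨l, 0, hl, by omega, ?_⟩
  intro r hr r' hr' i hi j hj p q p' q' hp hq hp' hq'
  rw [h r hr i hi j hj p q (by omega) (by omega), h r' hr' i hi j hj p' q' (by omega) (by omega)]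

theorem exists_beta (N : ℕ) : ∃ β, N ≤ β ∧ tm (β + 4) = true ∧ tm (β + 5) = false := by
  have : ∃ j, N + 1 ≤ j ∧ tm j = false := by
    have h0 := tm_even (N + 1)
    have h1 := tm_odd (N + 1)
    cases h : tm (N + 1) with
    | false => exact ⟨N + 1, le_rfl, h⟩
    | true =>
      rw [h] at h1
      exact ⟨2 * (N + 1) + 1, by omega, by simpa using h1⟩
  obtain ⟨j, hj, hj2⟩ := this
  refine ⟨4 * j - 2, by omega, ?_, ?_⟩
  · have e : 4 * j - 2 + 4 = 2 * (2 * j + 1) := by omega
    rw [e, tm_even, tm_odd, hj2]; rfl
  · have e : 4 * j - 2 + 5 = 2 * (2 * j + 1) + 1 := by omega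
    rw [e, tm_odd, tm_odd, hj2]; rfl

/-- For every `k ≥ 3` and every `N` there is a permutation of length at least `N` which is
bicrucial with respect to `k`-th powers. -/
theorem result : ∀ k : ℕ, 3 ≤ k → ∀ N : ℕ, ∃ n : ℕ, N ≤ n ∧
    ∃ σ : Equiv.Perm (Fin n), Bicrucial k σ := by
  intro k hk N
  obtain ⟨κ, rfl⟩ : ∃ κ, k = κ + 3 := ⟨k - 3, by omega⟩
  obtain ⟨β, hβ, hb1, hb2⟩ := exists_beta N
  have hLL : LL κ β = 4 * κ + 4 * β + 17 := rfl
  have h3L : 3 * LL κ β ≤ (κ + 3) * LL κ β := Nat.mul_le_mul_right _ (by omega)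
  obtain ⟨n, hn⟩ : ∃ n, n + 1 = (κ + 3) * LL κ β := ⟨(κ + 3) * LL κ β - 1, by omega⟩
  have hsplit : (κ + 3) * LL κ β = (κ + 2) * LL κ β + LL κ β := by ring
  obtain ⟨σ, hσ⟩ := exists_perm n (fun i => val κ β i) (by
    intro i j hij
    exact Fin.ext (val_inj κ β hij))
  refine ⟨n, by omega, σ, ?_, ?_, ?_⟩
  · -- no power
    rintro ⟨l, s, hl, hs, h⟩
    have hlL : l < LL κ β := by
      by_contra hcon
      have : (κ + 3) * LL κ β ≤ (κ + 3) * l := Nat.mul_le_mul_left _ (by omega)
      omega
    apply nopower hb1 hb2 (s := s) hl hlL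
    intro r hr r' hr' i hi j hj
    have hb : ∀ r < κ + 3, ∀ i < l, s + r * l + i < n := by
      intro r hr i hi
      have : (r + 1) * l ≤ (κ + 3) * l := Nat.mul_le_mul_right _ (by omega)
      rw [add_mul, one_mul] at this
      omega
    have := h r hr r' hr' i hi j hj ⟨_, hb r hr i hi⟩ ⟨_, hb r hr j hj⟩ ⟨_, hb r' hr' i hi⟩
      ⟨_, hb r' hr' j hj⟩ rfl rfl rfl rfl
    rw [hσ, hσ] at this
    exact this
  · -- right extensions
    intro τ hτ
    have hcmp : ∀ p q : Fin (n + 1), (p : ℕ) < n → (q : ℕ) < n →
        (τ p < τ q ↔ val κ β p < val κ β q) := by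
      intro p q hp hq
      have e1 : p = Fin.castSucc ⟨p, hp⟩ := rfl
      have e2 : q = Fin.castSucc ⟨q, hq⟩ := rfl
      have := hτ ⟨p, hp⟩ ⟨q, hq⟩
      rw [← e1, ← e2, hσ] at this
      exact this
    have hpen : n - 1 < n + 1 := by omega
    rcases lt_trichotomy (τ ⟨n - 1, hpen⟩) (τ (Fin.last n)) with hlt | heq | hgt
    · -- ascent at the end: blocks of length two
      refine power_two (s := n + 1 - (κ + 3) * 2) τ (by omega) ?_
      intro r hr p q hp hq
      by_cases hrl : r = κ + 2
      · have e1 : p = ⟨n - 1, hpen⟩ := Fin.ext (by simp only; omega)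
        have e2 : q = Fin.last n := Fin.ext (by simp only [Fin.val_last]; omega)
        rw [e1, e2]; exact hlt
      · rw [hcmp p q (by omega) (by omega)]
        have := asc_right κ β (κ + 2) (2 * (κ + 3 - r)) hb1 (by omega) (by omega)
        have e1 : (p : ℕ) = (κ + 2) * LL κ β + (LL κ β - 2 * (κ + 3 - r)) := by omega
        have e2 : (q : ℕ) = (κ + 2) * LL κ β + (LL κ β - 2 * (κ + 3 - r)) + 1 := by omega
        rw [e1, e2]
        exact this
    · exact absurd (congrArg Fin.val (τ.injective heq)) (by simp only [Fin.val_last]; omega)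
    · -- descent at the end: blocks of length `LL κ β`
      refine power_pattern (l := LL κ β) τ (by omega) (by omega)
        (fun i j => val κ β i < val κ β j) ?_
      intro r hr i hi j hj p q hp hq
      have hrL : r * LL κ β ≤ (κ + 2) * LL κ β := Nat.mul_le_mul_right _ (by omega)
      -- the new element is below the whole last block
      have hlow : ∀ t : Fin (n + 1), (κ + 2) * LL κ β ≤ (t : ℕ) → (t : ℕ) < n →
          τ (Fin.last n) < τ t := by
        intro t ht1 ht2
        by_cases h : (t : ℕ) = n - 1
        · have : t = ⟨n - 1, hpen⟩ := Fin.ext h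
          rw [this]; exact hgt
        · refine lt_trans hgt ?_
          rw [hcmp _ _ (by simp only; omega) ht2]
          refine sp_cut (g := (κ + 2) * LL κ β + (LL κ β - 3)) (sp_pred κ β _ 3 (by omega)
            (by omega)) (by omega) ?_
          simp only
          omega
      have hlow0 : ∀ t, t < LL κ β - 1 → val κ β (LL κ β - 1) < val κ β t := by
        intro t ht
        refine sp_cut (g := 0 * LL κ β + (LL κ β - 2)) (sp_pred κ β _ 2 (by omega)
            (by omega)) (by omega) (by omega)
      by_cases hp' : (p : ℕ) < n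
      · by_cases hq' : (q : ℕ) < n
        · rw [hcmp p q hp' hq', hp, hq]
          exact val_shift_lt κ β i j r
        · -- q is the last position
          have hq2 := q.isLt
          have hr2 : r = κ + 2 := by
            by_contra hcon
            have : (r + 1) * LL κ β ≤ (κ + 2) * LL κ β := Nat.mul_le_mul_right _ (by omega)
            rw [add_mul, one_mul] at this
            omega
          subst hr2
          have e2 : q = Fin.last n := Fin.ext (by simp only [Fin.val_last]; omega)
          have ej : j = LL κ β - 1 := by omega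
          refine iff_of_false (lt_asymm ?_) (lt_asymm ?_)
          · rw [e2]; exact hlow p (by omega) hp'
          · rw [ej]; exact hlow0 i (by omega)
      · have hp2 := p.isLt
        have hr2 : r = κ + 2 := by
          by_contra hcon
          have : (r + 1) * LL κ β ≤ (κ + 2) * LL κ β := Nat.mul_le_mul_right _ (by omega)
          rw [add_mul, one_mul] at this
          omega
        subst hr2
        have e1 : p = Fin.last n := Fin.ext (by simp only [Fin.val_last]; omega)
        have ei : i = LL κ β - 1 := by omega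
        by_cases hq' : (q : ℕ) < n
        · refine iff_of_true ?_ ?_
          · rw [e1]; exact hlow q (by omega) hq'
          · rw [ei]; exact hlow0 j (by omega)
        · have hq2 := q.isLt
          have e2 : q = Fin.last n := Fin.ext (by simp only [Fin.val_last]; omega)
          have ej : j = LL κ β - 1 := by omega
          rw [e1, e2, ei, ej]
          simp
  · -- left extensions
    intro τ hτ
    have hcmp : ∀ p q : Fin (n + 1), 1 ≤ (p : ℕ) → 1 ≤ (q : ℕ) →
        (τ p < τ q ↔ val κ β (p - 1) < val κ β (q - 1)) := by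
      intro p q hp hq
      have hp2 := p.isLt
      have hq2 := q.isLt
      have e1 : p = Fin.succ ⟨p - 1, by omega⟩ := Fin.ext (by simp only [Fin.val_succ]; omega)
      have e2 : q = Fin.succ ⟨q - 1, by omega⟩ := Fin.ext (by simp only [Fin.val_succ]; omega)
      have := hτ ⟨p - 1, by omega⟩ ⟨q - 1, by omega⟩
      rw [← e1, ← e2, hσ] at this
      exact this
    have hone : 1 < n + 1 := by omega
    rcases lt_trichotomy (τ 0) (τ ⟨1, hone⟩) with hlt | heq | hgt
    · refine power_two (s := 0) τ (by omega) ?_
      intro r hr p q hp hq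
      by_cases hr0 : r = 0
      · subst hr0
        have e1 : p = 0 := Fin.ext (by simp only [Fin.val_zero]; omega)
        have e2 : q = ⟨1, hone⟩ := Fin.ext (by simp only; omega)
        rw [e1, e2]; exact hlt
      · rw [hcmp p q (by omega) (by omega)]
        have := asc_left κ β 0 (2 * r - 1) (by omega) (by omega)
        rw [zero_mul, zero_add] at this
        have e1 : (p : ℕ) - 1 = 2 * r - 1 := by omega
        have e2 : (q : ℕ) - 1 = 2 * r - 1 + 1 := by omega
        rw [e1, e2]
        exact this
    · exact absurd (congrArg Fin.val (τ.injective heq)) (by simp only [Fin.val_zero]; omega)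
    · refine power_pattern (l := LL κ β) τ (by omega) (by omega)
        (fun i j => 1 ≤ j ∧ (i = 0 → False) ∧ val κ β (i - 1) < val κ β (j - 1) ∨
          (j = 0 ∧ 1 ≤ i)) ?_
      intro r hr i hi j hj p q hp hq
      -- the first element of each block is above the rest
      have hhigh : ∀ t u : Fin (n + 1), (t : ℕ) = r * LL κ β → r * LL κ β < (u : ℕ) →
          (u : ℕ) < r * LL κ β + LL κ β → τ u < τ t := by
        intro t u ht hu1 hu2
        by_cases hr0 : r = 0
        · subst hr0
          have e1 : t = 0 := Fin.ext (by simp only [Fin.val_zero]; omega)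
          rw [e1]
          by_cases hu : (u : ℕ) = 1
          · have e2 : u = ⟨1, hone⟩ := Fin.ext hu
            rw [e2]; exact hgt
          · refine lt_trans ?_ hgt
            rw [hcmp _ _ (by omega) (by simp only; omega)]
            refine sp_cut (g := 0 * LL κ β) (sp_mul κ β 0) ?_ (by omega)
            simp only
            omega
        · have hr1 : 1 ≤ r * LL κ β := by
            have : 1 * 1 ≤ r * LL κ β := Nat.mul_le_mul (by omega) (by omega)
            omega
          rw [hcmp _ _ (by omega) (by omega)]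
          have e : r * LL κ β = (r - 1) * LL κ β + LL κ β := by
            obtain ⟨d, rfl⟩ : ∃ d, r = d + 1 := ⟨r - 1, by omega⟩
            simp only [Nat.add_sub_cancel]
            ring
          refine sp_cut (g := (r - 1) * LL κ β + (LL κ β - 1)) (sp_pred κ β _ 1 (by omega)
            (by omega)) (by omega) (by omega)
      by_cases hi0 : i = 0
      · by_cases hj0 : j = 0
        · have : p = q := Fin.ext (by omega)
          rw [this, hi0, hj0]
          simp
        · refine iff_of_false (lt_asymm (hhigh p q (by omega) (by omega) (by omega))) ?_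
          rintro (h | h)
          · exact h.2.1 hi0
          · exact hj0 h.1
      · by_cases hj0 : j = 0
        · exact iff_of_true (hhigh q p (by omega) (by omega) (by omega))
            (Or.inr ⟨hj0, by omega⟩)
        · rw [hcmp p q (by omega) (by omega)]
          have e1 : (p : ℕ) - 1 = r * LL κ β + (i - 1) := by omega
          have e2 : (q : ℕ) - 1 = r * LL κ β + (j - 1) := by omega
          rw [e1, e2, val_shift_lt]
          constructor
          · intro h
            exact Or.inl ⟨by omega, hi0, h⟩
          · rintro (h | h)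
            · exact h.2.2
            · exact absurd h.1 hj0

end Pool.Agent.Results.MP_8f6629_co.AllPowers
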